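import Pool.Agent.helper84.NR.Spec

set_option autoImplicit false

namespace Pool.Agent.helper84.NR

open scoped Classical
open Finset

theorem TOP (hLIN : LIN_stmt) (hCNT : CNT_stmt) (hGCN : GCN_stmt) (hCCT : CCT_stmt)
    (hEDG : EDG_stmt) : TOP_stmt := by
  intro V F _ _ M x y J hT
  have h1 := hLIN V F M (inU M x y J) (inW M x y J) ?_ ?_ ?_
  · have h2 := hCNT V F M x y J hT
    have h3 := hGCN V F M x y J hT
    have h4 := hCCT V F M x y J hT
    have h4' : 2 * (Nat.card (Quot (lk M (inU M x y J))) : ℤ) ≤ 4 + ((gaps M x y J).card : ℤ) := by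
      exact_mod_cast h4
    linarith
  · rintro e (⟨_, A, _, hA⟩ | ⟨B, _, k, _, rfl⟩)
    · exact ⟨A, hA⟩
    · exact ⟨B, st M y B + k, rfl⟩
  · obtain ⟨f, k, hk⟩ := M.cover x
    have he : OnE M.toCyc f s(M.bd f k, M.bd f (k + 1)) := ⟨k, rfl⟩
    obtain ⟨_, hv, hne⟩ := (hEDG V F M).1 f _ _ he
    refine ⟨M.bd f (k + 1), Or.inl ⟨?_, f, ⟨k, hk⟩, hv⟩⟩
    intro hx
    exact hne (hk.trans hx.symm)
  · rintro e (⟨hx, A, hAx, k, rfl⟩ | ⟨B, hB, k, hk, rfl⟩) v hv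
    · refine Or.inl ⟨?_, A, hAx, ?_⟩
      · rintro rfl
        exact hx hv
      · rw [Sym2.mem_iff] at hv
        rcases hv with rfl | rfl
        · exact ⟨k, rfl⟩
        · exact ⟨k + 1, rfl⟩
    · rw [Sym2.mem_iff] at hv
      rcases hv with rfl | rfl
      · exact Or.inr ⟨B, hB, k, hk, rfl⟩
      · obtain ⟨⟨a, hak, ha⟩, b, hkb, hb⟩ := hk
        by_cases hb1 : b = k + 1
        · subst hb1
          obtain ⟨_, _, A, hAx, hA⟩ := hb
          refine Or.inl ⟨?_, A, hAx, hA⟩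
          intro hx
          exact hT.ne B ⟨⟨_, hx⟩, hT.jy B hB⟩
        · exact Or.inr ⟨B, hB, k + 1, ⟨⟨a, by omega, ha⟩, b, by omega, hb⟩, rfl⟩

end Pool.Agent.helper84.NR
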